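import Pool.Agent.helper84.WZ.SpecA

set_option autoImplicit false

namespace WZ

open Pointwise

/-- Labels of nonempty paths all of whose intermediate states are in `U`. -/
inductive K2_P {Q : Type} (E : Q → Q → Set (ℕ × ℕ)) (U : Set Q) : Q → Q → ℕ × ℕ → Prop
  | one {β δ : Q} {x : ℕ × ℕ} : x ∈ E β δ → K2_P E U β δ x
  | cons {β γ δ : Q} {x y : ℕ × ℕ} : x ∈ E β γ → γ ∈ U → K2_P E U γ δ y → K2_P E U β δ (x + y)

theorem K2_P_mono {Q : Type} {E : Q → Q → Set (ℕ × ℕ)} {U V : Set Q} (h : U ⊆ V) {β δ : Q}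
    {x : ℕ × ℕ} (hx : K2_P E U β δ x) : K2_P E V β δ x := by
  induction hx with
  | one h1 => exact K2_P.one h1
  | cons h1 h2 _ ih => exact K2_P.cons h1 (h h2) ih

theorem K2_P_trans {Q : Type} {E : Q → Q → Set (ℕ × ℕ)} {U : Set Q} {β κ δ : Q} (hκ : κ ∈ U)
    {x y : ℕ × ℕ} (hx : K2_P E U β κ x) (hy : K2_P E U κ δ y) : K2_P E U β δ (x + y) := by
  induction hx with
  | one h1 => exact K2_P.cons h1 hκ hy
  | cons h1 h2 _ ih =>
    rw [add_assoc]
    exact K2_P.cons h1 h2 (ih hκ hy)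

theorem K2_P_loop {Q : Type} {E : Q → Q → Set (ℕ × ℕ)} {U : Set Q} {κ : Q} (hκ : κ ∈ U)
    {c : ℕ × ℕ} (hc : c ∈ AddSubmonoid.closure {x | K2_P E U κ κ x}) :
    ∀ {δ : Q} {y : ℕ × ℕ}, K2_P E U κ δ y → K2_P E U κ δ (c + y) := by
  induction hc using AddSubmonoid.closure_induction with
  | mem x hx => intro δ y hy; exact K2_P_trans hκ hx hy
  | zero => intro δ y hy; rwa [zero_add]
  | add x z _ _ ihx ihz =>
    intro δ y hy
    rw [add_assoc]
    exact ihx (ihz hy)

theorem K2_step {Q : Type} (E : Q → Q → Set (ℕ × ℕ)) (V : Set Q) (κ β δ : Q) :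
    {x | K2_P E (insert κ V) β δ x} = {x | K2_P E V β δ x} ∪
      ({x | K2_P E V β κ x} + (AddSubmonoid.closure {x | K2_P E V κ κ x} : Set (ℕ × ℕ)) +
        {x | K2_P E V κ δ x}) := by
  ext z
  constructor
  · intro hz
    simp only [Set.mem_setOf_eq] at hz
    induction hz with
    | one h1 => exact Or.inl (K2_P.one h1)
    | @cons β γ δ x y h1 h2 _ ih =>
      rcases ih with ih | ih
      · rcases h2 with h2 | h2
        · subst h2
          right
          refine Set.mem_add.mpr ⟨x, Set.mem_add.mpr ⟨x, K2_P.one h1, 0, AddSubmonoid.zero_mem _,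
            add_zero x⟩, y, ih, rfl⟩
        · exact Or.inl (K2_P.cons h1 h2 ih)
      · right
        obtain ⟨u, hu, y2, hy2, rfl⟩ := Set.mem_add.mp ih
        obtain ⟨y1, hy1, c, hc, rfl⟩ := Set.mem_add.mp hu
        rcases h2 with h2 | h2
        · subst h2
          refine Set.mem_add.mpr ⟨x + (y1 + c), Set.mem_add.mpr ⟨x, K2_P.one h1, y1 + c,
            AddSubmonoid.add_mem _ (AddSubmonoid.subset_closure hy1) hc, rfl⟩, y2, hy2, ?_⟩
          abel
        · refine Set.mem_add.mpr ⟨(x + y1) + c, Set.mem_add.mpr ⟨x + y1,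
            K2_P.cons h1 h2 hy1, c, hc, rfl⟩, y2, hy2, ?_⟩
          abel
  · intro hz
    have hsub : V ⊆ insert κ V := Set.subset_insert κ V
    have hκ : κ ∈ insert κ V := Set.mem_insert κ V
    rcases hz with hz | hz
    · exact K2_P_mono hsub hz
    · obtain ⟨u, hu, y2, hy2, rfl⟩ := Set.mem_add.mp hz
      obtain ⟨y1, hy1, c, hc, rfl⟩ := Set.mem_add.mp hu
      rw [add_assoc]
      refine K2_P_trans hκ (K2_P_mono hsub hy1) ?_
      refine K2_P_loop hκ ?_ (K2_P_mono hsub hy2)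
      have h3 : ({x | K2_P E V κ κ x} : Set (ℕ × ℕ)) ⊆ {x | K2_P E (insert κ V) κ κ x} :=
        fun x hx => K2_P_mono hsub hx
      exact AddSubmonoid.closure_mono h3 hc

theorem K2_semi {Q : Type} (E : Q → Q → Set (ℕ × ℕ)) (hE : ∀ β δ, IsSemilinearSet (E β δ))
    (U : Set Q) (hU : U.Finite) : ∀ β δ, IsSemilinearSet {x | K2_P E U β δ x} := by
  induction U, hU using Set.Finite.induction_on with
  | empty =>
    intro β δ
    have h : {x | K2_P E ∅ β δ x} = E β δ := by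
      ext x
      constructor
      · intro hx
        cases hx with
        | one h1 => exact h1
        | cons _ h2 _ => exact absurd h2 (Set.notMem_empty _)
      · intro hx
        exact K2_P.one hx
    rw [h]
    exact hE β δ
  | @insert κ V _ _ ih =>
    intro β δ
    rw [K2_step]
    exact (ih β δ).union (((ih β κ).add (ih κ κ).closure).add (ih κ δ))

/-- One step of a spine. -/
def K2_E {T : Type} (S : Sys T) (a b : T) (β γ : S.St) : Set (ℕ × ℕ) :=
  {x | S.rd β a γ ∧ x = (1, 0)} ∪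
    ((⋃ α : S.St, {x | S.sp β α γ ∧ ∃ n : ℕ, S.Der α (List.replicate n a) ∧ x = (n, 0)}) ∪
      ⋃ α : S.St, {x | S.sp β γ α ∧ ∃ n : ℕ, S.Der α (List.replicate n b) ∧ x = (0, n)})

theorem K2_E_semi (hK1 : K1_stmt) {T : Type} (S : Sys T) (a b : T) (β γ : S.St) :
    IsSemilinearSet (K2_E S a b β γ) := by
  haveI := S.fin
  refine IsSemilinearSet.union ?_ (IsSemilinearSet.union ?_ ?_)
  · refine IsSemilinearSet.of_finite (Set.Finite.subset (Set.finite_singleton ((1, 0) : ℕ × ℕ)) ?_)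
    intro x hx
    exact hx.2
  · refine IsSemilinearSet.iUnion fun α => ?_
    by_cases h : S.sp β α γ
    · have h2 : {x | S.sp β α γ ∧ ∃ n : ℕ, S.Der α (List.replicate n a) ∧ x = ((n, 0) : ℕ × ℕ)} =
          (AddMonoidHom.inl ℕ ℕ) '' {n : ℕ | S.Der α (List.replicate n a)} := by
        ext x
        constructor
        · rintro ⟨_, n, hn, rfl⟩
          exact ⟨n, hn, rfl⟩
        · rintro ⟨n, hn, rfl⟩
          exact ⟨h, n, hn, rfl⟩
      rw [h2]
      exact (hK1 T S a α).image _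
    · have h2 : {x | S.sp β α γ ∧ ∃ n : ℕ, S.Der α (List.replicate n a) ∧ x = ((n, 0) : ℕ × ℕ)} =
          ∅ := by
        ext x
        simp [h]
      rw [h2]
      exact IsSemilinearSet.empty
  · refine IsSemilinearSet.iUnion fun α => ?_
    by_cases h : S.sp β γ α
    · have h2 : {x | S.sp β γ α ∧ ∃ n : ℕ, S.Der α (List.replicate n b) ∧ x = ((0, n) : ℕ × ℕ)} =
          (AddMonoidHom.inr ℕ ℕ) '' {n : ℕ | S.Der α (List.replicate n b)} := by
        ext x
        constructor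
        · rintro ⟨_, n, hn, rfl⟩
          exact ⟨n, hn, rfl⟩
        · rintro ⟨n, hn, rfl⟩
          exact ⟨h, n, hn, rfl⟩
      rw [h2]
      exact (hK1 T S b α).image _
    · have h2 : {x | S.sp β γ α ∧ ∃ n : ℕ, S.Der α (List.replicate n b) ∧ x = ((0, n) : ℕ × ℕ)} =
          ∅ := by
        ext x
        simp [h]
      rw [h2]
      exact IsSemilinearSet.empty

theorem K2_Sp_step {T : Type} (S : Sys T) (a b : T) {β γ δ : S.St} {x y : ℕ × ℕ}
    (hx : x ∈ K2_E S a b β γ) (hy : S.Sp a b γ δ y) : S.Sp a b β δ (x + y) := by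
  rw [add_comm]
  rcases hx with ⟨h1, rfl⟩ | hx | hx
  · exact Sys.Sp.rd h1 hy
  · obtain ⟨α, h1, n, hn, rfl⟩ := Set.mem_iUnion.mp hx
    exact Sys.Sp.lf h1 hn hy
  · obtain ⟨α, h1, n, hn, rfl⟩ := Set.mem_iUnion.mp hx
    exact Sys.Sp.rt h1 hn hy

theorem K2_Sp_iff {T : Type} (S : Sys T) (a b : T) (β δ : S.St) (x : ℕ × ℕ) :
    S.Sp a b β δ x ↔ (β = δ ∧ x = 0) ∨ K2_P (K2_E S a b) Set.univ β δ x := by
  have key : ∀ {β γ δ : S.St} {x y : ℕ × ℕ}, x ∈ K2_E S a b β γ →
      ((γ = δ ∧ y = 0) ∨ K2_P (K2_E S a b) Set.univ γ δ y) →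
      (β = δ ∧ y + x = 0) ∨ K2_P (K2_E S a b) Set.univ β δ (y + x) := by
    intro β γ δ x y hx hy
    right
    rw [add_comm]
    rcases hy with ⟨rfl, rfl⟩ | hy
    · rw [add_zero]
      exact K2_P.one hx
    · exact K2_P.cons hx (Set.mem_univ _) hy
  constructor
  · intro h
    induction h with
    | refl β => exact Or.inl ⟨rfl, rfl⟩
    | rd h1 _ ih => exact key (Or.inl ⟨h1, rfl⟩) ih
    | @lf β α γ δ n x h1 h2 _ ih =>
      exact key (Or.inr (Or.inl (Set.mem_iUnion.mpr ⟨α, h1, n, h2, rfl⟩))) ih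
    | @rt β α γ δ n x h1 h2 _ ih =>
      exact key (Or.inr (Or.inr (Set.mem_iUnion.mpr ⟨γ, h1, n, h2, rfl⟩))) ih
  · rintro (⟨rfl, rfl⟩ | h)
    · exact Sys.Sp.refl β
    · induction h with
      | @one β δ x h1 =>
        have := K2_Sp_step S a b h1 (Sys.Sp.refl δ)
        rwa [add_zero] at this
      | cons h1 _ _ ih => exact K2_Sp_step S a b h1 ih

theorem K2 (hK1 : K1_stmt) : K2_stmt := by
  intro T S a b β δ
  haveI := S.fin
  have h : {x : ℕ × ℕ | S.Sp a b β δ x} =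
      {x | β = δ ∧ x = 0} ∪ {x | K2_P (K2_E S a b) Set.univ β δ x} := by
    ext x
    exact K2_Sp_iff S a b β δ x
  rw [h]
  refine IsSemilinearSet.union ?_ (K2_semi _ (K2_E_semi hK1 S a b) _ (Set.finite_univ) β δ)
  refine IsSemilinearSet.of_finite (Set.Finite.subset (Set.finite_singleton (0 : ℕ × ℕ)) ?_)
  intro x hx
  exact hx.2

end WZ
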