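import Pool.Agent.helper84.WZ.SpecB

set_option autoImplicit false

namespace WZ

open Filter

theorem RM_mul (hEM : EM_stmt) (F : W → ℤ × ℤ → W → ℤ × ℤ) (x z : W) (P Q : TW)
    (h1 : LegalIn F x P (mo Q * z)) (h2 : LegalIn F (x * mo P) Q z) : LegalIn F x (P * Q) z := by
  intro l v v' r h
  rcases hEM.2.2.2.1 P Q l r v v' h with ⟨r', hr, rfl⟩ | ⟨l', hl, rfl⟩
  · obtain ⟨t, ht⟩ := h1 l v v' r' hr
    refine ⟨t, ?_⟩
    rw [ht, map_mul, mul_assoc]
  · obtain ⟨t, ht⟩ := h2 l' v v' r hl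
    refine ⟨t, ?_⟩
    rw [ht, map_mul, mul_assoc]

theorem RM_leg (hEM : EM_stmt) (F : W → ℤ × ℤ → W → ℤ × ℤ) (e : Ultrafilter W) (he : MinE e)
    (p q : Ultrafilter TW) (hp : p.map mo = e) (hq : q.map mo = e) (h1 : Leg F e p)
    (h2 : Leg F e q) : Leg F e (p * q) := by
  have e1 : q.map mo * e = e := by rw [hq]; exact he.idem
  have e2 : e * p.map mo = e := by rw [hp]; exact he.idem
  have h1' : ∀ᶠ x in (e : Filter W), ∀ᶠ P in (p : Filter TW), ∀ᶠ Q in (q : Filter TW),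
      ∀ᶠ z in (e : Filter W), LegalIn F x P (mo Q * z) := by
    refine h1.mono fun x hx => hx.mono fun P hP => ?_
    have h3 : ∀ᶠ z in ((q.map mo * e : Ultrafilter W) : Filter W), LegalIn F x P z := by
      rw [e1]; exact hP
    exact h3
  have h2' : ∀ᶠ x in (e : Filter W), ∀ᶠ P in (p : Filter TW), ∀ᶠ Q in (q : Filter TW),
      ∀ᶠ z in (e : Filter W), LegalIn F (x * mo P) Q z := by
    have h3 : ∀ᶠ x in ((e * p.map mo : Ultrafilter W) : Filter W), ∀ᶠ Q in (q : Filter TW),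
        ∀ᶠ z in (e : Filter W), LegalIn F x Q z := by
      rw [e2]; exact h2
    exact h3
  have h3 : ∀ᶠ x in (e : Filter W), ∀ᶠ P in (p : Filter TW), ∀ᶠ Q in (q : Filter TW),
      ∀ᶠ z in (e : Filter W), LegalIn F x (P * Q) z := by
    filter_upwards [h1', h2'] with x hx1 hx2
    filter_upwards [hx1, hx2] with P hP1 hP2
    filter_upwards [hP1, hP2] with Q hQ1 hQ2
    filter_upwards [hQ1, hQ2] with z hz1 hz2
    exact RM_mul hEM F x z P Q hz1 hz2
  exact h3.mono fun x hx => hx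

theorem RM (hUM : UM_stmt) (hEM : EM_stmt) : RM_stmt := by
  intro F e he
  refine ⟨fun p q hp hq h1 h2 => RM_leg hEM F e he p q hp hq h1 h2, ?_, ?_⟩
  · intro p
    refine Filter.Eventually.of_forall fun x => ?_
    have h : ∀ᶠ w in (p : Filter W), ∀ᶠ z in (e : Filter W), LegalIn F x (emb w) z := by
      refine Filter.Eventually.of_forall fun w => Filter.Eventually.of_forall fun z => ?_
      intro l v v' r hl
      exact absurd hl (hEM.2.2.1 w l r v v')
    exact h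
  · rintro y y' ⟨p, hp1, hp2, hp3⟩ ⟨q, hq1, hq2, hq3⟩
    refine ⟨p * q, ?_, ?_, RM_leg hEM F e he p q hp1 hq1 hp3 hq3⟩
    · rw [hUM.1, hp1, hq1]; exact he.idem
    · rw [hUM.1, hp2, hq2]

end WZ
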